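import Pool.Agent.AT3.Stmts3
import Pool.Agent.Helper69_K9.Fmg
import Pool.Agent.Helper66_ML.Mn4

/-!
# Squad AT3, row DVS: `V` is a defect group of the characters in `e`; `ℓ` divides the alternating sum
-/

open scoped BigOperators

noncomputable section

namespace Pool.Agent.PP.T3.H24

open Pool.Agent.Helper51_AWC Pool.Agent.Helper79_WRA Pool.Agent.PP Pool.Agent.PP.KF
open Pool.Agent.PP.K9 Pool.Agent.PP.K9.H97 Pool.Agent.PP.H75 Pool.Agent.Helper98_CC

attribute [local instance] Ideal.Quotient.field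

/-- maximal good `ℓ`-subgroups are defect groups -/
theorem isDef_of_tp {ℓ : ℕ} [Fact ℓ.Prime] {M : Ideal (integralClosure ℤ ℂ)} [M.IsMaximal]
    (hM : (ℓ : integralClosure ℤ ℂ) ∈ M) {G : Type} [Group G] [Finite G] {e : G → FF M}
    (he : IsBlk e) {V : Subgroup G} (hV : Tp ℓ e V) {χ : G → ℂ} (hχ : χ ∈ Irr G)
    (h1 : res M e χ = 1) : ML.IsDef ℓ M χ V := by
  have := Fintype.ofFinite G
  have hℓ : ℓ.Prime := Fact.out
  have hF : GoodF ℓ (FF M) := H50.fld ℓ hℓ M hM
  have key : ∀ y : G, ¬ Cong M (omega (MonoidHom.id G) χ y) 0 ↔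
      res M (clsum (FF M) (⊤ : Subgroup G) y) χ ≠ 0 := by
    intro y
    rw [H50.res_clsum, labF, ← red_eq_iff (omega_integral _ hχ y) isIntegral_zero, red_zero]
  refine ⟨hV.pg, ?_, ?_⟩
  · obtain ⟨-, -, y, hy, -, hnd, c, hc, hcy⟩ := K9.H69.fmg ℓ M hM G e he V hV
    refine ⟨y, ?_, ?_, hnd⟩
    · rw [key]
      intro h0
      have hk := H50.isCl_clsum (F := FF M) y
      have h2 := congrArg (fun f => res M f χ) hcy
      rw [H50.res_mul (H50.isCl_mulF hc hk) he.1.1 hχ, H50.res_mul hc hk hχ, h0, h1, mul_zero,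
        zero_mul] at h2
      exact zero_ne_one h2
    · intro v hv
      rw [Subgroup.mem_centralizer_singleton_iff]
      exact Subgroup.mem_centralizer_iff.1 hy v hv
  · intro y hy
    rw [key] at hy
    have hk := H50.isCl_clsum (F := FF M) y
    rcases H50.blk_dich he hk with ⟨n, hn⟩ | ⟨c, hc, hcy⟩
    · exfalso
      have h2 := (H50.res_iterate hk he.1.1 hχ n).2
      rw [hn, H50.res_zero, h1, mul_one] at h2
      exact hy (eq_zero_of_pow_eq_zero h2.symm)
    · obtain ⟨r, hr⟩ := K9.H69.below hF he.1.1 hc hcy hV.pg hV.gd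
      refine ⟨r, fun d hd => ?_⟩
      have h3 : r * d * r⁻¹ ∈ conjS r V := by
        rw [mem_conjS]
        have h4 : r⁻¹ * (r * d * r⁻¹) * r = d := by group
        rwa [h4]
      exact Subgroup.mem_centralizer_singleton_iff.1 (hr h3)

theorem dvs : DvsStmt := by
  intro ℓ _ M _ hM G _ _ hO e V γ hL hV χ hχ h1
  have hD := isDef_of_tp hM hL.blk hL.tp hχ h1
  refine ⟨hD, ?_⟩
  have hℓ : ℓ.Prime := Fact.out
  have hdv : ℓ ∣ Nat.card V := by
    obtain ⟨n, hn⟩ := (IsPGroup.iff_card (p := ℓ) (G := V)).1 hL.tp.pg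
    rw [hn]
    refine dvd_pow_self ℓ ?_
    rintro rfl
    apply hV
    rw [pow_zero] at hn
    exact Subgroup.card_eq_one.1 hn
  obtain ⟨z, hz⟩ := exists_prime_orderOf_dvd_card' ℓ hdv
  let A : CommGroup V := { (inferInstance : Group V) with
    mul_comm := fun a b => Subtype.ext (hL.ab a a.2 b b.2) }
  have h2 := ML.mn4_ ℓ M hM G (by rw [hO]; exact bot_le) χ hχ V hD V (MonoidHom.id V) (by
      intro r hr
      rw [hO, Subgroup.mem_bot] at hr
      exact Subtype.ext hr) z (by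
      intro d
      rw [hO, Subgroup.mem_bot, hL.ab z z.2 d d.2]
      group)
  rw [MonoidHom.id_apply, hz, hO, Subgroup.card_bot, mul_one] at h2
  exact h2

end Pool.Agent.PP.T3.H24
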